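import Pool.Agent.Run7.h245.SR.Iface2
import Pool.Agent.N42.PF.CQ

/-!
# Project SR, piece FF: the classes of square norm over a finite field come from points

Elementary proof by a character sum: if `a` has the signs `(+, -, -)` at the three zeros `e₁, e₂, e₃` of the
cubic polynomial then `∑ (1 + χ(x - e₁)) (1 - χ(x - e₂)) (1 - χ(x - e₃)) = q + 1 + ∑ χ(f(x)) ≥ 1`, so some
`x` (possibly one of the `e_i`) has the right signs. Similarly if there is only one zero.
-/

set_option autoImplicit false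
set_option linter.all false

open Polynomial
open scoped Classical

namespace Pool.Agent.Run7.h697.SR

open Pool.Agent.Run7.h245.SR

/-! ### Character sums -/

section sums

variable {k : Type} [Field k] [Fintype k]

lemma rc2 (h2 : (2 : k) ≠ 0) : ringChar k ≠ 2 := by
  intro h
  apply h2
  have := ringChar.Nat.cast_ringChar (R := k)
  rw [h] at this
  exact_mod_cast this

/-- `∑ χ(t ^ 2 - D) = -1`. -/
lemma sum_sq_sub (h2 : (2 : k) ≠ 0) (D : k) (hD : D ≠ 0) :
    ∑ t : k, quadraticChar k (t ^ 2 - D) = -1 := by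
  have h : ∑ t : k, (quadraticChar k (t ^ 2 - D) + 1) = (Fintype.card k : ℤ) - 1 := by
    have h1 : ∀ t : k, quadraticChar k (t ^ 2 - D) + 1 =
        (({x : k | x ^ 2 = t ^ 2 - D}.toFinset.card : ℕ) : ℤ) := fun t =>
      (quadraticChar_card_sqrts (rc2 h2) (t ^ 2 - D)).symm
    rw [Finset.sum_congr rfl fun t _ => h1 t, ← Nat.cast_sum, ← Finset.card_sigma]
    have h3 : (Finset.univ.sigma fun t : k => {x : k | x ^ 2 = t ^ 2 - D}.toFinset).card =
        (Finset.univ : Finset kˣ).card := by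
      symm
      refine Finset.card_bij (fun u _ => ⟨((u : k) + D * (u⁻¹ : kˣ)) / 2, (D * (u⁻¹ : kˣ) - u) / 2⟩)
        ?_ ?_ ?_
      · intro u _
        simp only [Finset.mem_sigma, Finset.mem_univ, true_and, Set.mem_toFinset, Set.mem_setOf_eq]
        have hu : (u : k) * (u⁻¹ : kˣ) = 1 := by simp
        field_simp
        linear_combination (-4 * D) * hu
      · intro u _ v _ h
        simp only [Sigma.mk.injEq, heq_eq_eq] at h
        obtain ⟨h3, h4⟩ := h
        have : (u : k) = v := by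
          have h5 : ((u : k) + D * (u⁻¹ : kˣ)) / 2 - (D * (u⁻¹ : kˣ) - u) / 2 = u := by
            field_simp; ring
          have h6 : ((v : k) + D * (v⁻¹ : kˣ)) / 2 - (D * (v⁻¹ : kˣ) - v) / 2 = v := by
            field_simp; ring
          rw [← h5, ← h6, h3, h4]
        exact Units.ext this
      · rintro ⟨t, y⟩ h
        simp only [Finset.mem_sigma, Finset.mem_univ, true_and, Set.mem_toFinset,
          Set.mem_setOf_eq] at h
        have h5 : (t - y) * (t + y) = D := by linear_combination -h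
        have h6 : t - y ≠ 0 := fun h => hD (by rw [← h5, h, zero_mul])
        refine ⟨Units.mk0 (t - y) h6, Finset.mem_univ _, ?_⟩
        have h7 : D * ((Units.mk0 (t - y) h6)⁻¹ : kˣ) = t + y := by
          rw [Units.val_inv_eq_inv_val, Units.val_mk0, ← h5]
          field_simp
        simp only [h7, Units.val_mk0, Sigma.mk.injEq, heq_eq_eq]
        constructor
        · field_simp; ring
        · field_simp; ring
    rw [h3, Finset.card_univ, Fintype.card_units]
    have : 1 ≤ Fintype.card k := Fintype.card_pos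
    push_cast [Nat.cast_sub this]
    ring
  rw [Finset.sum_add_distrib] at h
  simp only [Finset.sum_const, Finset.card_univ, nsmul_eq_mul, mul_one] at h
  linarith

/-- `∑ χ(t ^ 2 + b t + c) = -1`. -/
lemma sum_quad (h2 : (2 : k) ≠ 0) (b c : k) (hD : b ^ 2 - 4 * c ≠ 0) :
    ∑ t : k, quadraticChar k (t ^ 2 + b * t + c) = -1 := by
  have h4 : (4 : k) ≠ 0 := by
    have : (4 : k) = 2 * 2 := by norm_num
    rw [this]; exact mul_ne_zero h2 h2
  have h := sum_sq_sub h2 ((b ^ 2 - 4 * c) / 4) (div_ne_zero hD h4)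
  rw [← h, ← Equiv.sum_comp (Equiv.addRight (-(b / 2)))]
  refine Finset.sum_congr rfl fun t _ => ?_
  congr 1
  simp only [Equiv.coe_addRight]
  field_simp
  ring

lemma chi_nonneg (x : k) : 0 ≤ 1 + quadraticChar k x := by
  rcases eq_or_ne x 0 with rfl | hx
  · simp
  · rcases quadraticChar_dichotomy hx with h | h <;> rw [h] <;> norm_num

lemma sq_of_chi {x : k} (h : quadraticChar k x ≠ -1) : IsSquare x := by
  rcases eq_or_ne x 0 with rfl | hx
  · exact IsSquare.zero
  · rcases quadraticChar_dichotomy hx with h' | h'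
    · exact (quadraticChar_one_iff_isSquare hx).1 h'
    · exact absurd h' h

lemma nsq_of_chi {x : k} (hx : x ≠ 0) (h : quadraticChar k x ≠ 1) : ¬ IsSquare x := fun h' =>
  h ((quadraticChar_one_iff_isSquare hx).2 h')

/-- Three zeros. -/
lemma exists_three (h2 : (2 : k) ≠ 0) (e₁ e₂ e₃ : k) (h12 : e₁ ≠ e₂) (h13 : e₁ ≠ e₃)
    (h23 : e₂ ≠ e₃) : ∃ x : k, IsSquare (x - e₁) ∧ (x = e₂ ∨ ¬ IsSquare (x - e₂)) ∧
      (x = e₃ ∨ ¬ IsSquare (x - e₃)) := by
  have hs : ∀ e : k, ∑ x : k, quadraticChar k (x - e) = 0 := by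
    intro e
    rw [← Equiv.sum_comp (Equiv.addRight e)]
    simpa using quadraticChar_sum_zero (F := k) (rc2 h2)
  have hp : ∀ e e' : k, e ≠ e' →
      ∑ x : k, quadraticChar k (x - e) * quadraticChar k (x - e') = -1 := by
    intro e e' he
    have := sum_quad h2 (-(e + e')) (e * e') (by
      have : (e - e') ^ 2 ≠ 0 := pow_ne_zero 2 (sub_ne_zero.2 he)
      convert this using 1; ring)
    rw [← this]
    refine Finset.sum_congr rfl fun x _ => ?_
    rw [← map_mul]; congr 1; ring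
  have ht : 0 < ∑ x : k, (1 + quadraticChar k (x - e₁)) * (1 - quadraticChar k (x - e₂)) *
      (1 - quadraticChar k (x - e₃)) := by
    have h : ∑ x : k, (1 + quadraticChar k (x - e₁)) * (1 - quadraticChar k (x - e₂)) *
        (1 - quadraticChar k (x - e₃)) = ∑ x : k, (1 +
          quadraticChar k ((x - e₁) * (x - e₂) * (x - e₃))) + ∑ x : k, quadraticChar k (x - e₁) -
        ∑ x : k, quadraticChar k (x - e₂) - ∑ x : k, quadraticChar k (x - e₃) -
        ∑ x : k, quadraticChar k (x - e₁) * quadraticChar k (x - e₂) -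
        ∑ x : k, quadraticChar k (x - e₁) * quadraticChar k (x - e₃) +
        ∑ x : k, quadraticChar k (x - e₂) * quadraticChar k (x - e₃) := by
      rw [← Finset.sum_add_distrib, ← Finset.sum_sub_distrib, ← Finset.sum_sub_distrib,
        ← Finset.sum_sub_distrib, ← Finset.sum_sub_distrib, ← Finset.sum_add_distrib]
      refine Finset.sum_congr rfl fun x _ => ?_
      rw [map_mul, map_mul]
      ring
    rw [h, hs, hs, hs, hp _ _ h12, hp _ _ h13, hp _ _ h23]
    have := Finset.sum_nonneg fun (x : k) (_ : x ∈ Finset.univ) =>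
      chi_nonneg ((x - e₁) * (x - e₂) * (x - e₃))
    linarith
  obtain ⟨x, _, hx⟩ := Finset.exists_ne_zero_of_sum_ne_zero ht.ne'
  refine ⟨x, sq_of_chi fun h => hx (by rw [h]; ring), ?_, ?_⟩
  · rcases eq_or_ne x e₂ with h | h
    · exact Or.inl h
    · exact Or.inr (nsq_of_chi (sub_ne_zero.2 h) fun h' => hx (by rw [h']; ring))
  · rcases eq_or_ne x e₃ with h | h
    · exact Or.inl h
    · exact Or.inr (nsq_of_chi (sub_ne_zero.2 h) fun h' => hx (by rw [h']; ring))

/-- One zero. -/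
lemma exists_one (h2 : (2 : k) ≠ 0) (e b c : k) (hq : ∀ x : k, x ^ 2 + b * x + c ≠ 0)
    (hD : b ^ 2 - 4 * c ≠ 0) : ∃ x : k, (x = e ∨ ¬ IsSquare (x - e)) ∧
      ¬ IsSquare (x ^ 2 + b * x + c) := by
  have hs : ∀ e : k, ∑ x : k, quadraticChar k (x - e) = 0 := by
    intro e
    rw [← Equiv.sum_comp (Equiv.addRight e)]
    simpa using quadraticChar_sum_zero (F := k) (rc2 h2)
  have ht : 0 < ∑ x : k, (1 - quadraticChar k (x - e)) *
      (1 - quadraticChar k (x ^ 2 + b * x + c)) := by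
    have h : ∑ x : k, (1 - quadraticChar k (x - e)) *
        (1 - quadraticChar k (x ^ 2 + b * x + c)) = ∑ x : k, (1 +
          quadraticChar k ((x - e) * (x ^ 2 + b * x + c))) - ∑ x : k, quadraticChar k (x - e) -
        ∑ x : k, quadraticChar k (x ^ 2 + b * x + c) := by
      rw [← Finset.sum_sub_distrib, ← Finset.sum_sub_distrib]
      refine Finset.sum_congr rfl fun x _ => ?_
      rw [map_mul]
      ring
    rw [h, hs, sum_quad h2 b c hD]
    have := Finset.sum_nonneg fun (x : k) (_ : x ∈ Finset.univ) =>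
      chi_nonneg ((x - e) * (x ^ 2 + b * x + c))
    linarith
  obtain ⟨x, _, hx⟩ := Finset.exists_ne_zero_of_sum_ne_zero ht.ne'
  refine ⟨x, ?_, nsq_of_chi (hq x) fun h' => hx (by rw [h']; ring)⟩
  rcases eq_or_ne x e with h | h
  · exact Or.inl h
  · exact Or.inr (nsq_of_chi (sub_ne_zero.2 h) fun h' => hx (by rw [h']; ring))

lemma nsq_mul {x y : k} (h2 : (2 : k) ≠ 0) (hx : ¬ IsSquare x) (hy : ¬ IsSquare y) :
    IsSquare (x * y) := by
  have hx0 : x ≠ 0 := fun h => hx (h ▸ IsSquare.zero)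
  have hy0 : y ≠ 0 := fun h => hy (h ▸ IsSquare.zero)
  rw [← quadraticChar_one_iff_isSquare (mul_ne_zero hx0 hy0), map_mul]
  rw [← quadraticChar_neg_one_iff_not_isSquare] at hx hy
  rw [hx, hy]; norm_num

lemma nsq_of_mul {x y : k} (hx0 : x ≠ 0) (hx : IsSquare x) (h : IsSquare (x * y)) : IsSquare y := by
  obtain ⟨s, rfl⟩ := hx
  obtain ⟨t, ht⟩ := h
  have hs : s ≠ 0 := fun h => hx0 (by rw [h, zero_mul])
  refine ⟨t / s, ?_⟩
  field_simp
  linear_combination ht

end sums

/-! ### Norms -/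

section norms

variable {k : Type} [Field k]

/-- The norm as a determinant. -/
lemma norm_det {n : ℕ} {f : k[X]} (hf : f.Monic) (hn : f.natDegree = n)
    (x : AdjoinRoot f) (M : Matrix (Fin n) (Fin n) k)
    (h : ∀ j : Fin n, x * AdjoinRoot.root f ^ (j : ℕ) =
      ∑ i : Fin n, M i j • AdjoinRoot.root f ^ (i : ℕ)) : Algebra.norm k x = M.det := by
  subst hn
  let b : Module.Basis (Fin f.natDegree) k (AdjoinRoot f) := (AdjoinRoot.powerBasis' hf).basis
  have hb : ∀ i, b i = AdjoinRoot.root f ^ (i : ℕ) := fun i => by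
    exact ((AdjoinRoot.powerBasis' hf).basis_eq_pow i).trans (by rw [AdjoinRoot.powerBasis'_gen])
  rw [Algebra.norm_eq_matrix_det b x]
  congr 1
  ext i j
  rw [Algebra.leftMulMatrix_eq_repr_mul, hb j, h j]
  have : ∑ i : Fin f.natDegree, M i j • AdjoinRoot.root f ^ (i : ℕ) = ∑ i, M i j • b i := by
    refine Finset.sum_congr rfl fun i _ => ?_
    rw [hb]
  rw [this, Module.Basis.repr_sum_self]

lemma norm_cubic (A B c₀ c₁ c₂ : k) :
    Algebra.norm k (AdjoinRoot.mk (cb A B) (C c₀ + C c₁ * X + C c₂ * X ^ 2)) =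
    (!![c₀, -B * c₂, -B * c₁; c₁, c₀ - A * c₂, -A * c₁ - B * c₂; c₂, c₁, c₀ - A * c₂] :
      Matrix (Fin 3) (Fin 3) k).det := by
  have hm : (cb A B).Monic := by unfold cb; monicity!
  have hd : (cb A B).natDegree = 3 := by unfold cb; compute_degree!
  apply norm_det hm hd
  have h0 : AdjoinRoot.mk (cb A B) (X ^ 3 + C A * X + C B) = 0 := AdjoinRoot.mk_self
  intro j
  set r := AdjoinRoot.root (cb A B)
  have hX : AdjoinRoot.mk (cb A B) X = r := rfl
  have hC : ∀ c, AdjoinRoot.mk (cb A B) (C c) = AdjoinRoot.of (cb A B) c := fun c => rfl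
  simp only [map_add, map_mul, map_pow, hX, hC] at h0 ⊢
  fin_cases j
  · simp [Fin.sum_univ_three, Algebra.smul_def]
  · simp [Fin.sum_univ_three, Algebra.smul_def]
    linear_combination (AdjoinRoot.of (cb A B) c₂) * h0
  · simp [Fin.sum_univ_three, Algebra.smul_def]
    linear_combination (AdjoinRoot.of (cb A B) c₁ +
      AdjoinRoot.of (cb A B) c₂ * r) * h0

lemma norm_quad (b c d₀ d₁ : k) :
    Algebra.norm k (AdjoinRoot.mk (X ^ 2 + C b * X + C c) (C d₀ + C d₁ * X)) =
    d₀ ^ 2 - b * d₀ * d₁ + c * d₁ ^ 2 := by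
  have hm : (X ^ 2 + C b * X + C c : k[X]).Monic := by monicity!
  have hd : (X ^ 2 + C b * X + C c : k[X]).natDegree = 2 := by compute_degree!
  rw [norm_det hm hd _ !![d₀, -c * d₁; d₁, d₀ - b * d₁], Matrix.det_fin_two_of]
  · ring
  have h0 : AdjoinRoot.mk (X ^ 2 + C b * X + C c : k[X]) (X ^ 2 + C b * X + C c) = 0 :=
    AdjoinRoot.mk_self
  intro j
  set r := AdjoinRoot.root (X ^ 2 + C b * X + C c : k[X])
  have hX : AdjoinRoot.mk (X ^ 2 + C b * X + C c : k[X]) X = r := rfl
  have hC : ∀ c', AdjoinRoot.mk (X ^ 2 + C b * X + C c : k[X]) (C c') =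
    AdjoinRoot.of (X ^ 2 + C b * X + C c : k[X]) c' := fun c => rfl
  simp only [map_add, map_mul, map_pow, hX, hC] at h0 ⊢
  fin_cases j
  · simp [Fin.sum_univ_two, Algebra.smul_def]
  · simp [Fin.sum_univ_two, Algebra.smul_def]
    linear_combination (AdjoinRoot.of (X ^ 2 + C b * X + C c : k[X]) d₁) * h0

/-! ### Squares modulo a product -/

lemma sq_crt {p q g s₁ s₂ : k[X]} (hc : IsCoprime p q) (h1 : p ∣ g - s₁ ^ 2) (h2 : q ∣ g - s₂ ^ 2) :
    ∃ s, p * q ∣ g - s ^ 2 := by
  obtain ⟨u, v, huv⟩ := id hc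
  refine ⟨s₂ * (u * p) + s₁ * (v * q), hc.mul_dvd ?_ ?_⟩
  · have : g - (s₂ * (u * p) + s₁ * (v * q)) ^ 2 = (g - s₁ ^ 2) -
        p * (u * (s₂ - s₁) * (s₂ * (u * p) + s₁ * (v * q) + s₁)) := by
      have hv : v * q = 1 - u * p := by linear_combination huv
      rw [hv]; ring
    rw [this]
    exact dvd_sub h1 (Dvd.intro _ rfl)
  · have : g - (s₂ * (u * p) + s₁ * (v * q)) ^ 2 = (g - s₂ ^ 2) -
        q * (v * (s₁ - s₂) * (s₂ * (u * p) + s₁ * (v * q) + s₂)) := by
      have hu : u * p = 1 - v * q := by linear_combination huv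
      rw [hu]; ring
    rw [this]
    exact dvd_sub h2 (Dvd.intro _ rfl)

lemma sq_lin {g : k[X]} {e : k} (h : IsSquare (g.eval e)) : ∃ s, X - C e ∣ g - s ^ 2 := by
  obtain ⟨t, ht⟩ := h
  refine ⟨C t, ?_⟩
  rw [dvd_iff_isRoot, IsRoot.def]
  simp [ht]; ring

lemma cop_lin {e e' : k} (h : e ≠ e') : IsCoprime (X - C e) (X - C e') :=
  isCoprime_X_sub_C_of_isUnit_sub (sub_ne_zero.2 h).isUnit

lemma mk_congr {f g h : k[X]} (H : f ∣ g - h) : AdjoinRoot.mk f g = AdjoinRoot.mk f h := by
  rw [← sub_eq_zero, ← map_sub, AdjoinRoot.mk_eq_zero]; exact H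

lemma cb_eq {A B e : k} (he : e ^ 3 + A * e + B = 0) :
    cb A B = (X - C e) * (X ^ 2 + C e * X + C (e ^ 2 + A)) := by
  have hB : B = -(e ^ 3 + A * e) := by linear_combination he
  unfold cb
  rw [hB]
  simp only [map_add, map_mul, map_neg, map_pow]
  ring

lemma red_quad (b c : k) (a : k[X]) : ∃ d₀ d₁ : k,
    X ^ 2 + C b * X + C c ∣ a - (C d₀ + C d₁ * X) := by
  have hm : (X ^ 2 + C b * X + C c : k[X]).Monic := by monicity!
  have hd : (X ^ 2 + C b * X + C c : k[X]).natDegree = 2 := by compute_degree!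
  set q : k[X] := X ^ 2 + C b * X + C c
  have h1 : (a %ₘ q).natDegree < 2 := by
    rw [← hd]; exact natDegree_modByMonic_lt a hm (fun h => by rw [h] at hd; simp at hd)
  refine ⟨(a %ₘ q).coeff 0, (a %ₘ q).coeff 1, ?_⟩
  have h2 : a %ₘ q = C ((a %ₘ q).coeff 0) + C ((a %ₘ q).coeff 1) * X := by
    conv_lhs => rw [(a %ₘ q).as_sum_range_C_mul_X_pow' h1]
    simp [Finset.sum_range_succ]
  rw [← h2]
  refine ⟨a /ₘ q, ?_⟩
  have := modByMonic_add_div a q
  linear_combination -this

lemma red_cubic (A B : k) (a : k[X]) : ∃ c₀ c₁ c₂ : k,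
    cb A B ∣ a - (C c₀ + C c₁ * X + C c₂ * X ^ 2) := by
  have hm : (cb A B).Monic := by unfold cb; monicity!
  have hd : (cb A B).natDegree = 3 := by unfold cb; compute_degree!
  set q : k[X] := cb A B
  have h1 : (a %ₘ q).natDegree < 3 := by
    rw [← hd]; exact natDegree_modByMonic_lt a hm (fun h => by rw [h] at hd; simp at hd)
  refine ⟨(a %ₘ q).coeff 0, (a %ₘ q).coeff 1, (a %ₘ q).coeff 2, ?_⟩
  have h2 : a %ₘ q = C ((a %ₘ q).coeff 0) + C ((a %ₘ q).coeff 1) * X +
      C ((a %ₘ q).coeff 2) * X ^ 2 := by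
    conv_lhs => rw [(a %ₘ q).as_sum_range_C_mul_X_pow' h1]
    simp [Finset.sum_range_succ]
  rw [← h2]
  refine ⟨a /ₘ q, ?_⟩
  have := modByMonic_add_div a q
  linear_combination -this

lemma eval_congr {f g h : k[X]} {e : k} (H : f ∣ g - h) (he : f.eval e = 0) :
    g.eval e = h.eval e := by
  obtain ⟨u, hu⟩ := H
  have := congrArg (eval e) hu
  rw [eval_sub, eval_mul, he, zero_mul] at this
  linear_combination this

/-- The norm of the cubic algebra if there is a zero. -/
lemma norm_split {A B e : k} (he : e ^ 3 + A * e + B = 0) (a : k[X]) :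
    Algebra.norm k (AdjoinRoot.mk (cb A B) a) = a.eval e *
      Algebra.norm k (AdjoinRoot.mk (X ^ 2 + C e * X + C (e ^ 2 + A)) a) := by
  obtain ⟨c₀, c₁, c₂, h⟩ := red_cubic A B a
  have he' : (cb A B).eval e = 0 := by simp [cb, he]
  have hq : X ^ 2 + C e * X + C (e ^ 2 + A) ∣ cb A B := by
    rw [cb_eq he]; exact Dvd.intro_left _ rfl
  rw [mk_congr h, norm_cubic, eval_congr h he', mk_congr (hq.trans h)]
  have h2 : X ^ 2 + C e * X + C (e ^ 2 + A) ∣ (C c₀ + C c₁ * X + C c₂ * X ^ 2) -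
      (C (c₀ - (e ^ 2 + A) * c₂) + C (c₁ - e * c₂) * X) := by
    refine ⟨C c₂, ?_⟩
    simp only [map_add, map_mul, map_sub, map_pow]
    ring
  rw [mk_congr h2, norm_quad, Matrix.det_fin_three]
  have hB : B = -(e ^ 3 + A * e) := by linear_combination he
  simp [hB]
  ring

lemma norm_lin (b c x : k) :
    Algebra.norm k (AdjoinRoot.mk (X ^ 2 + C b * X + C c) (C x - X)) = x ^ 2 + b * x + c := by
  have : (C x - X : k[X]) = C x + C (-1) * X := by simp; ring
  rw [this, norm_quad]; ring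

lemma norm_quad_split {b c e₂ e₃ : k} (hb : b = -(e₂ + e₃)) (hc : c = e₂ * e₃) (a : k[X]) :
    Algebra.norm k (AdjoinRoot.mk (X ^ 2 + C b * X + C c) a) = a.eval e₂ * a.eval e₃ := by
  obtain ⟨d₀, d₁, h⟩ := red_quad b c a
  rw [mk_congr h, norm_quad, eval_congr (e := e₂) h (by simp [hb, hc]; ring),
    eval_congr (e := e₃) h (by simp [hb, hc]; ring)]
  simp [hb, hc]
  ring

lemma finish {A B : k} {a : k[X]} (h : ∃ (x : k) (s : k[X]), cb A B ∣ a * (C x - X) - s ^ 2) :
    (∃ (x : k) (s : k[X]), x ^ 3 + A * x + B ≠ 0 ∧ cb A B ∣ a * (C x - X) - s ^ 2) ∨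
    ∃ (e : k) (s : k[X]), e ^ 3 + A * e + B = 0 ∧
      X ^ 2 + C e * X + C (e ^ 2 + A) ∣ a * (C e - X) - s ^ 2 := by
  obtain ⟨x, s, h⟩ := h
  by_cases hx : x ^ 3 + A * x + B = 0
  · right
    refine ⟨x, s, hx, dvd_trans ?_ h⟩
    rw [cb_eq hx]; exact Dvd.intro_left _ rfl
  · exact Or.inl ⟨x, s, hx, h⟩

/-- An element of the field `k[X] / (q)` whose norm is a square is a square. -/
lemma sq_field [Finite k] (h2 : (2 : k) ≠ 0) {q : k[X]} (hq : Irreducible q) (hm : q.Monic)
    {g : k[X]} (hg : ¬ q ∣ g) (hN : IsSquare (Algebra.norm k (AdjoinRoot.mk q g))) :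
    ∃ s, q ∣ g - s ^ 2 := by
  haveI := Fact.mk hq
  haveI : Module.Finite k (AdjoinRoot q) := (AdjoinRoot.powerBasis' hm).finite
  haveI : Finite (AdjoinRoot q) := Module.finite_of_finite k
  obtain ⟨d, hd⟩ := hN
  obtain ⟨s, hs⟩ := Pool.Agent.N42.PF.sq_of_norm (K := k) (E := AdjoinRoot q) h2
    (c := AdjoinRoot.mk q g) (fun h => hg (AdjoinRoot.mk_eq_zero.1 h)) (d := d) (by rw [hd]; ring)
  obtain ⟨s', rfl⟩ := AdjoinRoot.mk_surjective s
  refine ⟨s', ?_⟩
  rw [← AdjoinRoot.mk_eq_zero, map_sub, map_pow, ← hs]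
  ring

end norms

section final

variable {k : Type} [Field k] [Fintype k]

lemma core3 (h2 : (2 : k) ≠ 0) {A B e₁ e₂ e₃ : k} (h12 : e₁ ≠ e₂) (h13 : e₁ ≠ e₃) (h23 : e₂ ≠ e₃)
    (hf : cb A B = (X - C e₁) * ((X - C e₂) * (X - C e₃))) {a : k[X]}
    (s1 : IsSquare (a.eval e₁)) (s2 : ¬ IsSquare (a.eval e₂)) (s3 : ¬ IsSquare (a.eval e₃)) :
    ∃ (x : k) (s : k[X]), cb A B ∣ a * (C x - X) - s ^ 2 := by
  obtain ⟨x, hx1, hx2, hx3⟩ := exists_three h2 e₁ e₂ e₃ h12 h13 h23
  have t1 : IsSquare ((a * (C x - X)).eval e₁) := by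
    rw [eval_mul]; simpa using s1.mul hx1
  have t2 : IsSquare ((a * (C x - X)).eval e₂) := by
    rw [eval_mul]
    rcases hx2 with rfl | h
    · simp
    · simpa using nsq_mul h2 s2 h
  have t3 : IsSquare ((a * (C x - X)).eval e₃) := by
    rw [eval_mul]
    rcases hx3 with rfl | h
    · simp
    · simpa using nsq_mul h2 s3 h
  obtain ⟨u1, hu1⟩ := sq_lin t1
  obtain ⟨u2, hu2⟩ := sq_lin t2
  obtain ⟨u3, hu3⟩ := sq_lin t3
  obtain ⟨v, hv⟩ := sq_crt (cop_lin h23) hu2 hu3
  obtain ⟨w, hw⟩ := sq_crt ((cop_lin h12).mul_right (cop_lin h13)) hu1 hv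
  exact ⟨x, w, hf ▸ hw⟩

end final

theorem ff : S_FF := by
  intro k _ _ A B h6 hdisc a hcop hN
  haveI := Fintype.ofFinite k
  have h2 : (2 : k) ≠ 0 := fun h => h6 (by
    have : (6 : k) = 2 * 3 := by norm_num
    rw [this, h, zero_mul])
  have hm : (cb A B).Monic := by unfold cb; monicity!
  have hd : (cb A B).natDegree = 3 := by unfold cb; compute_degree!
  by_cases hroot : ∃ e, e ^ 3 + A * e + B = 0
  swap
  · left
    have hirr : Irreducible (cb A B) := by
      rw [hm.irreducible_iff_roots_eq_zero_of_degree_le_three (by rw [hd]; norm_num) (by rw [hd])]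
      rw [Multiset.eq_zero_iff_forall_notMem]
      intro e he
      exact hroot ⟨e, by simpa [cb] using (isRoot_of_mem_roots he)⟩
    refine sq_field h2 hirr hm ?_ hN
    intro h
    exact hirr.not_isUnit (hcop.isUnit_of_dvd' h dvd_rfl)
  obtain ⟨e, he⟩ := hroot
  have ha0 : ∀ x, x ^ 3 + A * x + B = 0 → a.eval x ≠ 0 := by
    intro x hx h
    obtain ⟨u, v, huv⟩ := hcop
    have := congrArg (eval x) huv
    simp [h, cb, hx] at this
  rw [norm_split he] at hN
  set q : k[X] := X ^ 2 + C e * X + C (e ^ 2 + A) with hqdef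
  have hqm : q.Monic := by rw [hqdef]; monicity!
  have hqd : q.natDegree = 2 := by rw [hqdef]; compute_degree!
  have hq_e : 3 * e ^ 2 + A ≠ 0 := by
    intro h
    apply hdisc
    have hB : B = -(e ^ 3 + A * e) := by linear_combination he
    have hA : A = -(3 * e ^ 2) := by linear_combination h
    rw [hB, hA]; ring
  have hcopq : IsCoprime (X - C e) q := by
    rw [isCoprime_comm]
    by_contra hnc
    have : ¬ IsCoprime (X - C e) q := fun h => hnc h.symm
    rw [(irreducible_X_sub_C e).coprime_iff_not_dvd, not_not, dvd_iff_isRoot] at this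
    apply hq_e
    have h' : q.eval e = 0 := this
    simp [hqdef] at h'
    linear_combination h'
  by_cases hroot2 : ∃ x, x ^ 2 + e * x + (e ^ 2 + A) = 0
  · -- three zeros
    obtain ⟨e₂, he₂⟩ := hroot2
    set e₃ := -e - e₂ with he₃
    have hA : e ^ 2 + A = e₂ * e₃ := by rw [he₃]; linear_combination he₂
    have hr2 : e₂ ^ 3 + A * e₂ + B = 0 := by linear_combination he + (e₂ - e) * he₂
    have hr3 : e₃ ^ 3 + A * e₃ + B = 0 := by
      rw [he₃]
      linear_combination he + (-e - e₂ - e) * he₂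
    have hfac : cb A B = (X - C e) * ((X - C e₂) * (X - C e₃)) := by
      rw [cb_eq he, hA, he₃]
      simp only [map_sub, map_mul, map_neg]
      ring
    have hdis : 4 * A ^ 3 + 27 * B ^ 2 = -((e - e₂) * (e - e₃) * (e₂ - e₃)) ^ 2 := by
      have hB : B = -(e ^ 3 + A * e) := by linear_combination he
      have hA' : A = -(e₂ ^ 2 + e * e₂ + e ^ 2) := by linear_combination he₂
      rw [hB, hA', he₃]; ring
    have h12 : e ≠ e₂ := fun h => hdisc (by rw [hdis, h]; ring)
    have h13 : e ≠ e₃ := fun h => hdisc (by rw [hdis, ← h]; ring)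
    have h23 : e₂ ≠ e₃ := fun h => hdisc (by rw [hdis, ← h]; ring)
    rw [norm_quad_split (e₂ := e₂) (e₃ := e₃) (by rw [he₃]; ring) hA] at hN
    have a1 := ha0 e he
    have a2 := ha0 e₂ hr2
    have a3 := ha0 e₃ hr3
    by_cases s1 : IsSquare (a.eval e)
    · by_cases s2 : IsSquare (a.eval e₂)
      · left
        have s3 : IsSquare (a.eval e₃) := nsq_of_mul a2 s2 (nsq_of_mul a1 s1 hN)
        obtain ⟨u1, hu1⟩ := sq_lin s1
        obtain ⟨u2, hu2⟩ := sq_lin s2
        obtain ⟨u3, hu3⟩ := sq_lin s3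
        obtain ⟨v, hv⟩ := sq_crt (cop_lin h23) hu2 hu3
        obtain ⟨w, hw⟩ := sq_crt ((cop_lin h12).mul_right (cop_lin h13)) hu1 hv
        exact ⟨w, hfac ▸ hw⟩
      · right
        have s3 : ¬ IsSquare (a.eval e₃) := fun s3 => s2 (by
          have h := nsq_of_mul a1 s1 hN
          rw [mul_comm] at h
          exact nsq_of_mul a3 s3 h)
        exact finish (core3 h2 h12 h13 h23 hfac s1 s2 s3)
    · by_cases s2 : IsSquare (a.eval e₂)
      · right
        have s3 : ¬ IsSquare (a.eval e₃) := fun s3 => s1 (by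
          have h : IsSquare (a.eval e₂ * (a.eval e₃ * a.eval e)) := by
            convert hN using 1; ring
          exact nsq_of_mul a3 s3 (nsq_of_mul a2 s2 h))
        refine finish (core3 h2 (Ne.symm h12) h23 h13 ?_ s2 s1 s3)
        rw [hfac]; ring
      · right
        have s3 : IsSquare (a.eval e₃) := by
          have h : IsSquare ((a.eval e * a.eval e₂) * a.eval e₃) := by
            convert hN using 1; ring
          exact nsq_of_mul (mul_ne_zero a1 a2) (nsq_mul h2 s1 s2) h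
        refine finish (core3 h2 (Ne.symm h13) (Ne.symm h23) h12 ?_ s3 s1 s2)
        rw [hfac]; ring
  · -- one zero
    push Not at hroot2
    have hqirr : Irreducible q := by
      rw [hqm.irreducible_iff_roots_eq_zero_of_degree_le_three (by rw [hqd]) (by rw [hqd]; norm_num)]
      rw [Multiset.eq_zero_iff_forall_notMem]
      intro x hx
      apply hroot2 x
      have := isRoot_of_mem_roots hx
      simpa [hqdef] using this
    have hqcb : q ∣ cb A B := by rw [cb_eq he]; exact Dvd.intro_left _ rfl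
    have hqa : ¬ q ∣ a := fun h => hqirr.not_isUnit (hcop.isUnit_of_dvd' h hqcb)
    have a1 := ha0 e he
    have hN0 : Algebra.norm k (AdjoinRoot.mk q a) ≠ 0 := by
      haveI := Fact.mk hqirr
      haveI : Module.Finite k (AdjoinRoot q) := (AdjoinRoot.powerBasis' hqm).finite
      rw [Algebra.norm_ne_zero_iff]
      exact fun h => hqa (AdjoinRoot.mk_eq_zero.1 h)
    by_cases s1 : IsSquare (a.eval e)
    · left
      obtain ⟨u1, hu1⟩ := sq_lin s1
      obtain ⟨u2, hu2⟩ := sq_field h2 hqirr hqm hqa (nsq_of_mul a1 s1 hN)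
      obtain ⟨w, hw⟩ := sq_crt hcopq hu1 hu2
      exact ⟨w, by rw [cb_eq he]; exact hw⟩
    · right
      have s2 : ¬ IsSquare (Algebra.norm k (AdjoinRoot.mk q a)) := fun h => s1 (by
        rw [mul_comm] at hN
        exact nsq_of_mul hN0 h hN)
      apply finish
      obtain ⟨x, hx1, hx2⟩ := exists_one h2 e e (e ^ 2 + A) hroot2 (by
        intro h
        apply hroot2 (-e / 2)
        field_simp
        linear_combination -h)
      have hx0 : x ^ 2 + e * x + (e ^ 2 + A) ≠ 0 := hroot2 x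
      have t1 : IsSquare ((a * (C x - X)).eval e) := by
        rw [eval_mul]
        rcases hx1 with rfl | h
        · simp
        · simpa using nsq_mul h2 s1 h
      have t2 : IsSquare (Algebra.norm k (AdjoinRoot.mk q (a * (C x - X)))) := by
        rw [map_mul, map_mul, hqdef, norm_lin]
        exact nsq_mul h2 s2 hx2
      have t3 : ¬ q ∣ a * (C x - X) := by
        intro h
        rcases hqirr.prime.dvd_or_dvd h with h | h
        · exact hqa h
        · have h' : (C x - X : k[X]) ≠ 0 := fun h0 => by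
            have := congrArg (fun p : k[X] => p.coeff 1) h0
            simp at this
          have := natDegree_le_of_dvd h h'
          rw [hqd] at this
          have h'' : (C x - X : k[X]).natDegree ≤ 1 := by compute_degree
          omega
      obtain ⟨u1, hu1⟩ := sq_lin t1
      obtain ⟨u2, hu2⟩ := sq_field h2 hqirr hqm t3 t2
      obtain ⟨w, hw⟩ := sq_crt hcopq hu1 hu2
      exact ⟨x, w, by rw [cb_eq he]; exact hw⟩

end Pool.Agent.Run7.h697.SR
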