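import Pool.Agent.Run7.h245.SR.Iface2
import Pool.Agent.N31.PF.Int
import Pool.Agent.Run7.h697.SR.FF

/-!
# Project SR, piece GOOD: good reduction
-/

set_option autoImplicit false
set_option linter.all false

open Polynomial IsDedekindDomain Matrix NumberField
open scoped Classical

namespace Pool.Agent.Run7.h697.SR

open Pool.Agent.N874.PP (Ev Sq1 U0 sW)
open Pool.Agent.N874.PM (PLoc)
open Pool.Agent.N783.PF
open Pool.Agent.Run7.h245.SR

section res

variable {F : Type} [Field F] [NumberField F] (w : HeightOneSpectrum (𝓞 F))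

/-- The integers of the completion. -/
abbrev RR : Type := w.adicCompletionIntegers F

lemma mem_max {r : 𝓞 F} (h : r ∈ w.asIdeal) :
    algebraMap (𝓞 F) (RR w) r ∈ IsLocalRing.maximalIdeal (RR w) := by
  rw [IsLocalRing.mem_maximalIdeal, mem_nonunits_iff,
    HeightOneSpectrum.adicCompletionIntegers.isUnit_iff_valued_eq_one]
  have h1 : w.valuation F (r : F) < 1 := (w.valuation_lt_one_iff_mem r).2 h
  have h2 : Valued.v (((algebraMap (𝓞 F) (RR w) r : RR w)) : w.adicCompletion F) =
      w.valuation F (r : F) := by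
    rw [HeightOneSpectrum.algebraMap_adicCompletionIntegers_apply]
    exact HeightOneSpectrum.valuedAdicCompletion_eq_valuation' w (r : F)
  rw [h2]
  exact h1.ne

/-- The map of the residue fields. -/
noncomputable def io : 𝓞 F ⧸ w.asIdeal →+* IsLocalRing.ResidueField (RR w) :=
  Ideal.Quotient.lift _ ((IsLocalRing.residue (RR w)).comp (algebraMap (𝓞 F) (RR w)))
    (fun r hr => by
      rw [RingHom.comp_apply, IsLocalRing.residue_eq_zero_iff]
      exact mem_max w hr)

lemma io_mk (r : 𝓞 F) : io w (Ideal.Quotient.mk w.asIdeal r) =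
    IsLocalRing.residue (RR w) (algebraMap (𝓞 F) (RR w) r) := by
  simp [io]

lemma io_inj : Function.Injective (io w) := by
  haveI := w.isMaximal
  letI := Ideal.Quotient.field w.asIdeal
  exact (io w).injective

lemma unit_of {r : 𝓞 F} (h : r ∉ w.asIdeal) : IsUnit (algebraMap (𝓞 F) (RR w) r) := by
  by_contra hn
  apply h
  rw [← Ideal.Quotient.eq_zero_iff_mem]
  apply io_inj w
  rw [io_mk, map_zero, IsLocalRing.residue_eq_zero_iff, IsLocalRing.mem_maximalIdeal]
  exact hn

lemma map_rd (a : (𝓞 F)[X]) : (rd w.asIdeal a).map (io w) =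
    (a.map (algebraMap (𝓞 F) (RR w))).map (IsLocalRing.residue (RR w)) := by
  rw [rd, Polynomial.map_map, Polynomial.map_map]
  congr 1

lemma map_E (a : (𝓞 F)[X]) : (a.map (algebraMap (𝓞 F) (RR w))).map
    (algebraMap (RR w) (w.adicCompletion F)) = (fF a).map (algebraMap F (w.adicCompletion F)) := by
  rw [fF, Polynomial.map_map, Polynomial.map_map]
  congr 1

/-- Hensel's lemma for square roots modulo `f`, in terms of residues. -/
lemma henq' (hHENQ : S_HENQ) {f c s : (RR w)[X]} (hf : f.Monic) (h2 : IsUnit (2 : RR w))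
    (h1 : f.map (IsLocalRing.residue (RR w)) ∣ c.map (IsLocalRing.residue (RR w)) -
      (s.map (IsLocalRing.residue (RR w))) ^ 2)
    (hc : IsCoprime (c.map (IsLocalRing.residue (RR w))) (f.map (IsLocalRing.residue (RR w)))) :
    ∃ y : (RR w)[X], f ∣ c - y ^ 2 := by
  set ρ := IsLocalRing.residue (RR w)
  have hs := Polynomial.map_surjective ρ IsLocalRing.residue_surjective
  obtain ⟨v₀, hv₀⟩ := h1
  obtain ⟨α, β, hαβ⟩ := hc
  obtain ⟨v, rfl⟩ := hs v₀
  obtain ⟨α, rfl⟩ := hs α
  obtain ⟨β, rfl⟩ := hs β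
  obtain ⟨t, ht⟩ := h2
  have ht' : (2 : RR w) * (t⁻¹ : (RR w)ˣ) = 1 := by rw [← ht]; simp
  have hmem : ∀ P : (RR w)[X], P.map ρ = 0 → ∀ i, P.coeff i ∈ IsLocalRing.maximalIdeal (RR w) := by
    intro P hP i
    have := congrArg (fun Q => Q.coeff i) hP
    have h3 : ρ (P.coeff i) = 0 := by simpa using this
    exact (IsLocalRing.residue_eq_zero_iff _).1 h3
  obtain ⟨y, hy⟩ := hHENQ F w f 0 (-c) s (C ((t⁻¹ : (RR w)ˣ) : RR w) * α * s) (-v)
    (-(α * v + β)) hf (by
      apply hmem
      simp only [Polynomial.map_sub, Polynomial.map_add, Polynomial.map_mul, Polynomial.map_pow,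
        Polynomial.map_neg, Polynomial.map_zero]
      linear_combination -hv₀) (by
      apply hmem
      have h2' : (2 : (IsLocalRing.ResidueField (RR w))[X]) * C (ρ ((t⁻¹ : (RR w)ˣ) : RR w)) = 1 := by
        have : (2 : (IsLocalRing.ResidueField (RR w))[X]) = C (ρ 2) := by
          rw [map_ofNat ρ 2, map_ofNat C 2]
        rw [this, ← C_mul, ← map_mul, ht', map_one, C_1]
      simp only [Polynomial.map_sub, Polynomial.map_add, Polynomial.map_mul, Polynomial.map_pow,
        Polynomial.map_neg, Polynomial.map_zero, Polynomial.map_one, Polynomial.map_ofNat,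
        Polynomial.map_C]
      linear_combination (s.map ρ) ^ 2 * α.map ρ * h2' + hαβ - α.map ρ * hv₀)
  refine ⟨y, ?_⟩
  have := (dvd_neg).2 hy
  convert this using 1
  ring

end res

section gen

variable {F L : Type} [Field F] [NumberField F] [Field L] [NumberField L]
  [Algebra F L] {f : (𝓞 F)[X]} {θ : L} {g : ℕ}

lemma irrF (h : IsGen g f θ) : Irreducible (fF f) := by
  rw [← Pool.Agent.N31.PF.minp h]
  haveI := Pool.Agent.N31.PF.fin h
  exact minpoly.irreducible (Algebra.IsIntegral.isIntegral θ)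

lemma cop_of (h : IsGen g f θ) {p : F[X]} (hp : aeval θ p ≠ 0) : IsCoprime p (fF f) := by
  rw [isCoprime_comm, (irrF h).coprime_iff_not_dvd]
  rintro ⟨q, rfl⟩
  apply hp
  rw [map_mul, h.root, zero_mul]

lemma norm_tr (h : IsGen g f θ) (p : F[X]) :
    Algebra.norm F (AdjoinRoot.mk (fF f) p) = Algebra.norm F (aeval θ p) := by
  haveI := Fact.mk (irrF h)
  let φ : AdjoinRoot (fF f) →ₐ[F] L := AdjoinRoot.liftAlgHom (fF f) (Algebra.ofId F L) θ (by
    have := h.root
    rwa [aeval_def] at this)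
  have hφ : ∀ p, φ (AdjoinRoot.mk (fF f) p) = aeval θ p := fun p => by
    simp only [φ, AdjoinRoot.coe_liftAlgHom, AdjoinRoot.lift_mk, aeval_def]
    rfl
  have hs : Function.Surjective φ := by
    intro x
    obtain ⟨c, rfl⟩ := h.gen x
    refine ⟨AdjoinRoot.mk (fF f) (∑ i, C (c i) * X ^ (i : ℕ)), ?_⟩
    rw [hφ]
    simp [map_sum]
  have := Algebra.norm_eq_of_algEquiv (AlgEquiv.ofBijective φ ⟨φ.toRingHom.injective, hs⟩)
    (AdjoinRoot.mk (fF f) p)
  rw [← this]
  exact congrArg _ (hφ p).symm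

lemma cubic_eq (h : IsGen 1 f θ) (h2 : f.coeff 2 = 0) :
    f = X ^ 3 + C (f.coeff 1) * X + C (f.coeff 0) := by
  have hd : f.natDegree = 3 := h.deg
  have h3 : f.coeff 3 = 1 := by rw [← hd]; exact h.mon
  conv_lhs => rw [f.as_sum_range_C_mul_X_pow' (show f.natDegree < 4 by omega)]
  simp only [Finset.sum_range_succ, Finset.sum_range_zero, h2, h3]
  simp
  ring

end gen

section field

variable {K : Type} [Field K]

/-- Transport of squares. -/
lemma transport {f h a u y G : K[X]} (hu : IsCoprime u f) (h1 : f ∣ h * a - u ^ 2)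
    (h2 : f ∣ a * G - y ^ 2) : ∃ g, f ∣ G * h - g ^ 2 := by
  have ha : IsCoprime a f := by
    have h3 : IsCoprime (u ^ 2) f := hu.pow_left
    obtain ⟨t, ht⟩ := h1
    have h4 : IsCoprime (h * a) f := by
      have : h * a = u ^ 2 + f * t := by linear_combination ht
      rw [this]
      exact h3.add_mul_left_left t
    exact h4.of_mul_left_right
  obtain ⟨z, v, hz⟩ := ha
  refine ⟨u * y * z, ?_⟩
  have e1 : AdjoinRoot.mk f h * AdjoinRoot.mk f a = AdjoinRoot.mk f u ^ 2 := by
    rw [← sub_eq_zero, ← map_mul, ← map_pow, ← map_sub, AdjoinRoot.mk_eq_zero]; exact h1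
  have e2 : AdjoinRoot.mk f a * AdjoinRoot.mk f G = AdjoinRoot.mk f y ^ 2 := by
    rw [← sub_eq_zero, ← map_mul, ← map_pow, ← map_sub, AdjoinRoot.mk_eq_zero]; exact h2
  have e3 : AdjoinRoot.mk f z * AdjoinRoot.mk f a = 1 := by
    have := congrArg (AdjoinRoot.mk f) hz
    rw [map_add, map_mul, map_mul, AdjoinRoot.mk_self, mul_zero, add_zero, map_one] at this
    exact this
  rw [← AdjoinRoot.mk_eq_zero]
  simp only [map_sub, map_mul, map_pow]
  linear_combination (AdjoinRoot.mk f y ^ 2 * AdjoinRoot.mk f z ^ 2) * e1 +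
    (AdjoinRoot.mk f h * AdjoinRoot.mk f a * AdjoinRoot.mk f z ^ 2) * e2 -
    (AdjoinRoot.mk f G * AdjoinRoot.mk f h) * (AdjoinRoot.mk f z * AdjoinRoot.mk f a + 1) * e3

/-- The discriminant of a separable cubic polynomial does not vanish. -/
lemma disc_ne {A B : K} (h2 : (2 : K) ≠ 0) (h3 : (3 : K) ≠ 0)
    (h : (X ^ 3 + C A * X + C B : K[X]).Separable) : 4 * A ^ 3 + 27 * B ^ 2 ≠ 0 := by
  intro hD
  obtain ⟨u, v, huv⟩ := h
  have key : ∀ x : K, x ^ 3 + A * x + B = 0 → 3 * x ^ 2 + A = 0 → False := by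
    intro x hx hx'
    have := congrArg (eval x) huv
    simp [derivative_X_pow, hx] at this
    rw [show (2 + 1 : K) = 3 by norm_num, hx', mul_zero] at this
    exact zero_ne_one this
  by_cases hA : A = 0
  · have hB : B = 0 := by
      have h27 : (27 : K) ≠ 0 := by
        have : (27 : K) = 3 ^ 3 := by norm_num
        rw [this]; exact pow_ne_zero 3 h3
      rw [hA] at hD
      have : (27 : K) * B ^ 2 = 0 := by linear_combination hD
      rcases mul_eq_zero.1 this with h | h
      · exact absurd h h27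
      · exact pow_eq_zero_iff (two_ne_zero) |>.1 h
    exact key 0 (by simp [hB]) (by simp [hA])
  · refine key (-(3 * B) / (2 * A)) ?_ ?_
    · field_simp
      linear_combination (-B) * hD
    · field_simp
      linear_combination hD

end field

theorem good (hRES : S_RES) (hFF : S_FF) (hHENQ : S_HENQ) (hHEN : S_HEN) (hPL : S_PL)
    (hDSC : S_DSC) : S_GOOD := by
  intro F L _ _ _ _ _ f θ hG hc2 w h6 hsep h hne hsq hev
  haveI hmax := w.isMaximal
  haveI hprime := w.isPrime
  letI : Field (𝓞 F ⧸ w.asIdeal) := Ideal.Quotient.field w.asIdeal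
  haveI : Finite (𝓞 F ⧸ w.asIdeal) := Ideal.finiteQuotientOfFreeOfNeBot _ w.ne_bot
  set A : 𝓞 F := f.coeff 1 with hA
  set B : 𝓞 F := f.coeff 0 with hB
  have hf := cubic_eq hG hc2
  rw [← hA, ← hB] at hf
  set mk := Ideal.Quotient.mk w.asIdeal with hmk
  have hfr : rd w.asIdeal f = cb (mk A) (mk B) := by
    rw [rd, hf]; simp [cb, hmk]
  have hfF : fF f = cb ((A : 𝓞 F) : F) ((B : 𝓞 F) : F) := by
    rw [fF, hf]; simp [cb]
  have h2 : (2 : 𝓞 F) ∉ w.asIdeal := fun hm => h6 (by
    have : (6 : 𝓞 F) = 3 * 2 := by norm_num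
    rw [this]; exact Ideal.mul_mem_left _ _ hm)
  have h3 : (3 : 𝓞 F) ∉ w.asIdeal := fun hm => h6 (by
    have : (6 : 𝓞 F) = 2 * 3 := by norm_num
    rw [this]; exact Ideal.mul_mem_left _ _ hm)
  have k2 : (2 : 𝓞 F ⧸ w.asIdeal) ≠ 0 := fun h => h2 (by
    rw [← Ideal.Quotient.eq_zero_iff_mem, map_ofNat]; exact h)
  have k3 : (3 : 𝓞 F ⧸ w.asIdeal) ≠ 0 := fun h => h3 (by
    rw [← Ideal.Quotient.eq_zero_iff_mem, map_ofNat]; exact h)
  have k6 : (6 : 𝓞 F ⧸ w.asIdeal) ≠ 0 := fun h => h6 (by
    rw [← Ideal.Quotient.eq_zero_iff_mem, map_ofNat]; exact h)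
  have hdisc := disc_ne k2 k3 (A := mk A) (B := mk B) (by rw [hfr] at hsep; exact hsep)
  have hds : dsc 1 f ∉ w.asIdeal := hDSC F 1 w.asIdeal f f le_rfl hprime w.ne_bot hG.mon
    hG.deg (fun j => by rw [sub_self]; exact Ideal.zero_mem _) hsep
  obtain ⟨a, u, hau, hu0, hacop, hnorm⟩ := hRES 1 F L f θ hG w
    (fun hm => hds (Ideal.pow_le_self (two_ne_zero) hm)) h hne hev
  obtain ⟨hn1, hn2⟩ := hnorm hsq
  rw [hfr] at hacop
  have hn2' : IsSquare (Algebra.norm (𝓞 F ⧸ w.asIdeal)
      (AdjoinRoot.mk (cb (mk A) (mk B)) (rd w.asIdeal a))) := by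
    rw [← hfr]; exact hn2
  -- the completion
  set E := w.adicCompletion F with hE
  have hucop : IsCoprime (u.map (algebraMap F E)) ((fF f).map (algebraMap F E)) :=
    (cop_of hG hu0).map (mapRingHom (algebraMap F E))
  have hau' : (fF f).map (algebraMap F E) ∣ h.map (algebraMap F E) *
      (fF a).map (algebraMap F E) - u.map (algebraMap F E) ^ 2 := by
    have := Polynomial.map_dvd (algebraMap F E) hau
    simpa using this
  have hfE : (fF f).map (algebraMap F E) = X ^ 3 + C (algebraMap F E (A : F)) * X +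
      C (algebraMap F E (B : F)) := by
    rw [hfF]; simp [cb]
  have hcop : IsCoprime h (cb ((A : 𝓞 F) : F) ((B : 𝓞 F) : F)) := by
    rw [← hfF]; exact cop_of hG hne
  have hnrm : IsSquare (Algebra.norm F (AdjoinRoot.mk (cb ((A : 𝓞 F) : F) ((B : 𝓞 F) : F)) h)) := by
    have := norm_tr hG h
    rw [hfF] at this
    rw [this]; exact hsq
  have fin2 : ∀ (x : E) (y : E[X]), x ^ 3 + algebraMap F E (A : F) * x + algebraMap F E (B : F) ≠ 0 →
      (fF f).map (algebraMap F E) ∣ (fF a).map (algebraMap F E) * (C x - X) - y ^ 2 →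
      PLoc E ((A : 𝓞 F) : F) ((B : 𝓞 F) : F) h := by
    intro x y hx hy
    obtain ⟨g, hg⟩ := transport hucop hau' hy
    rw [hfE] at hg
    exact hPL F E _ _ h x g hcop hnrm hx hg
  have u2 : IsUnit (2 : RR w) := by
    have := unit_of w h2
    rwa [map_ofNat] at this
  set fR := f.map (algebraMap (𝓞 F) (RR w)) with hfR
  set aR := a.map (algebraMap (𝓞 F) (RR w)) with haR
  set ρ := IsLocalRing.residue (RR w) with hρ
  have hfRm : fR.Monic := hG.mon.map _
  have hfRρ : fR.map ρ = (cb (mk A) (mk B)).map (io w) := by rw [← hfr, map_rd]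
  have haRρ : aR.map ρ = (rd w.asIdeal a).map (io w) := by rw [map_rd]
  have hacopρ : IsCoprime (aR.map ρ) (fR.map ρ) := by
    rw [hfRρ, haRρ]; exact hacop.map (mapRingHom (io w))
  have lift : ∀ P : (𝓞 F ⧸ w.asIdeal)[X], ∃ s : (RR w)[X], s.map ρ = P.map (io w) := by
    intro P
    obtain ⟨Q, rfl⟩ := Polynomial.map_surjective mk Ideal.Quotient.mk_surjective P
    exact ⟨Q.map (algebraMap (𝓞 F) (RR w)), (map_rd w Q).symm⟩
  have toE : ∀ {p q : (RR w)[X]}, p ∣ q → p.map (algebraMap (RR w) E) ∣ q.map (algebraMap (RR w) E) :=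
    fun h => Polynomial.map_dvd _ h
  have hfRE : fR.map (algebraMap (RR w) E) = (fF f).map (algebraMap F E) := map_E w f
  have haRE : aR.map (algebraMap (RR w) E) = (fF a).map (algebraMap F E) := map_E w a
  rcases hFF (𝓞 F ⧸ w.asIdeal) (mk A) (mk B) k6 hdisc (rd w.asIdeal a) hacop hn2' with
    ⟨s, hs⟩ | ⟨x, s, hx, hs⟩ | ⟨e, s, he, hs⟩
  · -- a square
    obtain ⟨sR, hsR⟩ := lift s
    obtain ⟨y, hy⟩ := henq' w hHENQ (f := fR) (c := aR) (s := sR) hfRm u2 (by
      rw [hsR, hfRρ, haRρ]
      have := Polynomial.map_dvd (io w) hs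
      simpa using this) hacopρ
    left
    have hy' := toE hy
    rw [hfRE, Polynomial.map_sub, Polynomial.map_pow, haRE] at hy'
    obtain ⟨g, hg⟩ := transport (G := 1) hucop hau' (by rw [mul_one]; exact hy')
    rw [one_mul, hfE] at hg
    exact ⟨g, hg⟩
  · -- a point
    obtain ⟨sR, hsR⟩ := lift s
    obtain ⟨x, rfl⟩ := Ideal.Quotient.mk_surjective x
    have hlin : (C (algebraMap (𝓞 F) (RR w) x) - X : (RR w)[X]).map ρ =
        (C (mk x) - X : (𝓞 F ⧸ w.asIdeal)[X]).map (io w) := by
      rw [Polynomial.map_sub, Polynomial.map_sub, map_C, map_C, map_X, map_X, hmk, io_mk]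
    have hcopx : IsCoprime (C (mk x) - X) (cb (mk A) (mk B)) := by
      have : (C (mk x) - X : (𝓞 F ⧸ w.asIdeal)[X]) = -(X - C (mk x)) := by ring
      rw [this, IsCoprime.neg_left_iff, (irreducible_X_sub_C _).coprime_iff_not_dvd, dvd_iff_isRoot]
      intro h
      apply hx
      simpa [cb] using h
    obtain ⟨y, hy⟩ := henq' w hHENQ (f := fR) (c := aR * (C (algebraMap (𝓞 F) (RR w) x) - X))
      (s := sR) hfRm u2 (by
        rw [hsR, hfRρ, Polynomial.map_mul, haRρ, hlin, ← Polynomial.map_mul, ← Polynomial.map_pow,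
          ← Polynomial.map_sub]
        exact Polynomial.map_dvd (io w) hs) (by
        rw [Polynomial.map_mul]
        refine IsCoprime.mul_left hacopρ ?_
        rw [hlin, hfRρ]
        exact hcopx.map (mapRingHom (io w)))
    have hy' := toE hy
    rw [hfRE, Polynomial.map_sub, Polynomial.map_pow, Polynomial.map_mul, haRE, Polynomial.map_sub,
      map_C, map_X] at hy'
    refine fin2 _ _ ?_ hy'
    intro h0
    apply hx
    have h1 : (algebraMap (𝓞 F) (RR w) (x ^ 3 + A * x + B)) = 0 := by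
      apply FaithfulSMul.algebraMap_injective (RR w) E
      rw [map_zero, ← h0]
      simp only [map_add, map_mul, map_pow]
      rfl
    have h2 := io_mk w (x ^ 3 + A * x + B)
    rw [h1, map_zero] at h2
    have h3 := io_inj w (h2.trans (map_zero _).symm)
    rw [← h3]
    simp [hmk]
  · -- a point of order two
    obtain ⟨sR, hsR⟩ := lift s
    obtain ⟨e₀, rfl⟩ := Ideal.Quotient.mk_surjective e
    rw [← hmk] at he hs
    have hρ0 : ∀ r : 𝓞 F, ρ (algebraMap (𝓞 F) (RR w) r) = io w (mk r) := fun r => (io_mk w r).symm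
    have hunit : ∀ r : RR w, ρ r ≠ 0 → IsUnit r := fun r hr =>
      (IsLocalRing.residue_ne_zero_iff_isUnit r).1 hr
    have hq_e : 3 * mk e₀ ^ 2 + mk A ≠ 0 := by
      intro h
      apply hdisc
      have hB' : mk B = -(mk e₀ ^ 3 + mk A * mk e₀) := by linear_combination he
      have hA' : mk A = -(3 * mk e₀ ^ 2) := by linear_combination h
      rw [hB', hA']; ring
    set AR := algebraMap (𝓞 F) (RR w) A with hAR
    set BR := algebraMap (𝓞 F) (RR w) B with hBR
    have hfR' : fR = X ^ 3 + C AR * X + C BR := by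
      rw [hfR, hf]; simp [hAR, hBR]
    haveI : HenselianLocalRing (RR w) := (hHEN F w).2
    obtain ⟨e₁, he₁, hee⟩ := HenselianLocalRing.is_henselian fR hfRm
      (algebraMap (𝓞 F) (RR w) e₀) (by
        apply (IsLocalRing.residue_eq_zero_iff _).1
        have : fR.eval (algebraMap (𝓞 F) (RR w) e₀) =
            algebraMap (𝓞 F) (RR w) (e₀ ^ 3 + A * e₀ + B) := by
          rw [hfR']; simp [hAR, hBR]
        rw [this]
        show ρ _ = 0
        rw [hρ0]
        have : mk (e₀ ^ 3 + A * e₀ + B) = 0 := by rw [← he]; simp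
        rw [this, map_zero]) (by
        apply hunit
        have : fR.derivative.eval (algebraMap (𝓞 F) (RR w) e₀) =
            algebraMap (𝓞 F) (RR w) (3 * e₀ ^ 2 + A) := by
          rw [hfR']; simp [hAR, hBR, derivative_X_pow]
          left; rw [map_ofNat]; norm_num
        rw [this, hρ0]
        intro h0
        apply hq_e
        have := io_inj w (h0.trans (map_zero _).symm)
        rw [← this]; simp only [map_add, map_mul, map_pow, map_ofNat])
    have hρe : ρ e₁ = io w (mk e₀) := by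
      rw [← hρ0, ← sub_eq_zero, ← map_sub]
      exact (IsLocalRing.residue_eq_zero_iff _).2 hee
    have he1 : e₁ ^ 3 + AR * e₁ + BR = 0 := by
      have : fR.eval e₁ = 0 := he₁
      rw [hfR'] at this
      simpa using this
    set q : (RR w)[X] := X ^ 2 + C e₁ * X + C (e₁ ^ 2 + AR) with hq
    have hqm : q.Monic := by rw [hq]; monicity!
    have hfac : fR = (X - C e₁) * q := by
      have hB' : BR = -(e₁ ^ 3 + AR * e₁) := by linear_combination he1
      rw [hfR', hB', hq]
      simp only [map_add, map_mul, map_neg, map_pow]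
      ring
    set q₀ : (𝓞 F ⧸ w.asIdeal)[X] := X ^ 2 + C (mk e₀) * X + C (mk e₀ ^ 2 + mk A) with hq₀
    have hqρ : q.map ρ = q₀.map (io w) := by
      rw [hq, hq₀]
      simp [hρe, hρ0, hAR]
    have hq₀dvd : q₀ ∣ cb (mk A) (mk B) := by
      rw [cb_eq he]; exact Dvd.intro_left _ rfl
    have haρ : ρ (aR.eval e₁) = io w ((rd w.asIdeal a).eval (mk e₀)) := by
      rw [← eval_map_apply, ← eval_map_apply, haRρ, hρe]
    have hau1 : IsUnit (aR.eval e₁) := by
      apply hunit
      rw [haρ]
      intro h0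
      have h1 := io_inj w (h0.trans (map_zero _).symm)
      obtain ⟨α, β, hαβ⟩ := hacop
      have h2 := congrArg (eval (mk e₀)) hαβ
      have h3 : eval (mk e₀) (cb (mk A) (mk B)) = 0 := by simpa [cb] using he
      rw [eval_add, eval_mul, eval_mul, h1, mul_zero, zero_add, h3, mul_zero, eval_one] at h2
      exact zero_ne_one h2
    obtain ⟨p, hpw, hp0⟩ := Submodule.exists_mem_ne_zero_of_ne_bot w.ne_bot
    set π := algebraMap (𝓞 F) (RR w) p with hπ
    have hπ0 : π ≠ 0 := by
      intro h
      apply hp0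
      apply FaithfulSMul.algebraMap_injective (𝓞 F) (RR w)
      rw [map_zero]; exact h
    have hρπ : ρ π = 0 := (IsLocalRing.residue_eq_zero_iff _).2 (mem_max w hpw)
    set t := aR.eval e₁ * π ^ 2 with ht
    have ht0 : t ≠ 0 := mul_ne_zero hau1.ne_zero (pow_ne_zero 2 hπ0)
    set x := e₁ + t with hx
    have hρx : ρ x = io w (mk e₀) := by
      rw [hx, ht, map_add, map_mul, map_pow, hρπ, hρe]; ring
    have hlin : (C x - X : (RR w)[X]).map ρ = (C (mk e₀) - X : (𝓞 F ⧸ w.asIdeal)[X]).map (io w) := by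
      rw [Polynomial.map_sub, Polynomial.map_sub, map_C, map_C, map_X, map_X, hρx]
    have hcope : IsCoprime (C (mk e₀) - X) q₀ := by
      have : (C (mk e₀) - X : (𝓞 F ⧸ w.asIdeal)[X]) = -(X - C (mk e₀)) := by ring
      rw [this, IsCoprime.neg_left_iff, (irreducible_X_sub_C _).coprime_iff_not_dvd, dvd_iff_isRoot]
      intro h
      apply hq_e
      have h' : q₀.eval (mk e₀) = 0 := h
      rw [hq₀] at h'
      simp at h'
      linear_combination h'
    obtain ⟨y, hy⟩ := henq' w hHENQ (f := q) (c := aR * (C x - X)) (s := sR) hqm u2 (by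
        rw [hsR, hqρ, Polynomial.map_mul, haRρ, hlin, ← Polynomial.map_mul, ← Polynomial.map_pow,
          ← Polynomial.map_sub]
        exact Polynomial.map_dvd (io w) hs) (by
        rw [Polynomial.map_mul, hqρ, hlin, haRρ]
        exact IsCoprime.mul_left ((hacop.of_isCoprime_of_dvd_right hq₀dvd).map (mapRingHom (io w)))
          (hcope.map (mapRingHom (io w))))
    have hy' := toE hy
    have hlinE : X - C e₁ ∣ aR * (C x - X) - (C (aR.eval e₁ * π)) ^ 2 := by
      rw [dvd_iff_isRoot, IsRoot.def]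
      simp only [eval_sub, eval_mul, eval_C, eval_X, eval_pow]
      rw [hx, ht]; ring
    have hlinE' := toE hlinE
    have hρq : ρ (q.eval x) ≠ 0 := by
      intro h0
      apply hq_e
      apply io_inj w
      rw [map_zero, ← h0, hq]
      simp only [eval_add, eval_pow, eval_X, eval_mul, eval_C, map_add, map_mul, map_pow, hρx, hρe,
        hρ0, hAR, map_ofNat]
      ring
    have hρq1 : ρ (q.eval e₁) ≠ 0 := by
      intro h0
      apply hq_e
      apply io_inj w
      rw [map_zero, ← h0, hq]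
      simp only [eval_add, eval_pow, eval_X, eval_mul, eval_C, map_add, map_mul, map_pow, hρe,
        hρ0, hAR, map_ofNat]
      ring
    have hcopE : IsCoprime ((X - C e₁ : (RR w)[X]).map (algebraMap (RR w) E))
        (q.map (algebraMap (RR w) E)) := by
      rw [Polynomial.map_sub, map_X, map_C, (irreducible_X_sub_C _).coprime_iff_not_dvd,
        dvd_iff_isRoot, IsRoot.def, eval_map_apply]
      intro h0
      apply (hunit _ hρq1).ne_zero
      apply FaithfulSMul.algebraMap_injective (RR w) E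
      rw [map_zero]; exact h0
    obtain ⟨Y, hY⟩ := sq_crt hcopE (g := (fF a).map (algebraMap F E) *
      (C (algebraMap (RR w) E x) - X)) (s₁ := (C (aR.eval e₁ * π)).map (algebraMap (RR w) E))
      (s₂ := y.map (algebraMap (RR w) E)) (by
        have := hlinE'
        simp only [Polynomial.map_sub, Polynomial.map_pow, Polynomial.map_mul, haRE,
          Polynomial.map_C, Polynomial.map_X] at this ⊢
        exact this) (by
        have := hy'
        simp only [Polynomial.map_sub, Polynomial.map_pow, Polynomial.map_mul, haRE,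
          Polynomial.map_C, Polynomial.map_X] at this ⊢
        exact this)
    rw [← Polynomial.map_mul, ← hfac, hfRE] at hY
    refine fin2 _ Y ?_ hY
    intro h0
    have h1 : t * q.eval x = 0 := by
      apply FaithfulSMul.algebraMap_injective (RR w) E
      rw [map_zero, ← h0]
      have h2 : t * q.eval x = x ^ 3 + AR * x + BR := by
        have := congrArg (eval x) hfac
        rw [hfR'] at this
        simp only [eval_add, eval_pow, eval_X, eval_mul, eval_C, eval_sub] at this
        rw [this, hx]; ring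
      rw [h2]
      simp only [map_add, map_mul, map_pow]
      rfl
    rcases mul_eq_zero.1 h1 with h | h
    · exact ht0 h
    · exact (hunit _ hρq).ne_zero h

end Pool.Agent.Run7.h697.SR
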